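import Pool.Agent.Helper65.HF.StC

/-!
# Project HF, module CNT: few standard lists are irregular
-/

set_option autoImplicit false

namespace Pool.Agent.Helper80.HF

open Pool.Agent.Helper65.HF

private lemma le_last {p : List ℕ} (hp : Srt p) : ∀ x ∈ p, x ≤ p.getLastD 0 := by
  rcases List.eq_nil_or_concat p with rfl | ⟨q, b, rfl⟩
  · intro x hx
    simp at hx
  · intro x hx
    have h1 : (q.concat b).getLastD 0 = b := by simp
    rw [h1]
    rw [List.concat_eq_append] at hx hp
    rw [List.mem_append] at hx
    rcases hx with hx | hx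
    · exact (List.pairwise_append.1 hp).2.2 x hx b (by simp)
    · simp only [List.mem_singleton] at hx
      exact hx.le

private lemma le_getD {p : List ℕ} (hp : Srt p) {i : ℕ} (hi : p.length = i) :
    ∀ x ∈ p, x ≤ p.getD (i - 1) 0 := by
  rcases List.eq_nil_or_concat p with rfl | ⟨q, b, rfl⟩
  · intro x hx
    simp at hx
  · intro x hx
    rw [List.concat_eq_append] at hx hp hi ⊢
    have h0 : i - 1 = q.length := by
      rw [← hi]
      simp
    have h1 : (q ++ [b]).getD (i - 1) 0 = b := by
      rw [h0]
      simp
    rw [h1]
    rw [List.mem_append] at hx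
    rcases hx with hx | hx
    · exact (List.pairwise_append.1 hp).2.2 x hx b (by simp)
    · simp only [List.mem_singleton] at hx
      exact hx.le

private lemma pre_app {St : List ℕ → Prop} (hPre : Pre St) (p : List ℕ) :
    ∀ τ : List ℕ, Srt (p ++ τ) → St (p ++ τ) → St p := by
  intro τ
  induction τ using List.reverseRecOn with
  | nil => intro _ h; simpa using h
  | append_singleton τ b ih =>
    intro h1 h2
    rw [← List.append_assoc] at h1 h2
    exact ih (List.pairwise_append.1 h1).1 (hPre _ _ h1 h2)

private lemma srt_card (M t : ℕ) : (srt M t).card ≤ M ^ t := by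
  classical
  unfold srt
  refine (Finset.card_filter_le _ _).trans (Finset.card_image_le.trans ?_)
  rw [Finset.card_univ, Fintype.card_fun, Fintype.card_fin, Fintype.card_fin]

theorem hCNT : Pool.Agent.Helper65.HF.sCNT := by
  intro hDEC M c ν St hPre
  classical
  rw [hDEC M ν c St, Finset.sum_range_succ', add_comm]
  refine add_le_add ?_ ?_
  · -- the term `i = 0`
    have h1 : irr M ν 0 ⊆ {[]} := by
      intro p hp
      rw [mem_irr] at hp
      rw [Finset.mem_singleton]
      exact List.length_eq_zero_iff.1 hp.1.1
    refine (Finset.sum_le_sum_of_subset h1).trans ?_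
    rw [Finset.sum_singleton]
    exact num_le_card _ _
  · have hI : Finset.Icc 1 c = (Finset.range c).image (· + 1) := by
      ext s
      simp only [Finset.mem_Icc, Finset.mem_image, Finset.mem_range]
      constructor
      · rintro ⟨h1, h2⟩
        exact ⟨s - 1, by omega, by omega⟩
      · rintro ⟨a, h1, rfl⟩
        omega
    rw [hI, Finset.sum_image (by intro a _ b _ h; simpa using h)]
    refine Finset.sum_le_sum fun i _ => ?_
    have h2 : ∀ p ∈ irr M ν (i + 1),
        num (tl M ν (i + 1) (c - (i + 1)) (p.getLastD 0)) (fun τ => St (p ++ τ)) ≤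
          (if St p then 1 else 0) * M ^ (c - (i + 1)) := by
      intro p hp
      rw [mem_irr] at hp
      by_cases h0 : St p
      · rw [if_pos h0, one_mul]
        refine (num_le_card _ _).trans ((Finset.card_le_card ?_).trans (srt_card _ _))
        intro τ hτ
        rw [mem_tl] at hτ
        rw [mem_srt]
        exact hτ.1
      · rw [if_neg h0, zero_mul, Nat.le_zero]
        unfold num
        rw [Finset.card_eq_zero, Finset.filter_eq_empty_iff]
        intro τ hτ h3
        rw [mem_tl] at hτ
        refine h0 (pre_app hPre p τ ?_ h3)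
        refine List.pairwise_append.2 ⟨hp.1.2.1, hτ.1.2.1, ?_⟩
        intro x hx y hy
        exact (le_last hp.1.2.1 x hx).trans (hτ.2.1 y hy)
    refine (Finset.sum_le_sum h2).trans ?_
    rw [← Finset.sum_mul, ← num_eq_sum]
    refine Nat.mul_le_mul_right _ (num_mono_set St ?_)
    intro p hp
    rw [mem_irr] at hp
    rw [mem_srt]
    refine ⟨hp.1.1, hp.1.2.1, fun x hx => ?_⟩
    rcases hp.2 with h | h
    · omega
    · exact lt_of_le_of_lt (le_getD hp.1.2.1 hp.1.1 x hx) h

end Pool.Agent.Helper80.HF
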